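import Pool.Agent.W872.MX.Stm

/-! The partition lemma. -/

set_option autoImplicit false

namespace W576.MX.LOV

open Finset W872.MX

open Classical in
/-- number of defects of a pair -/
noncomputable def w {V : Type} (G : MG V) (v u : V) : ℕ :=
  if u ≠ v then (if ¬ G.red.Adj v u then 1 else 0) + (if ¬ G.blue.Adj v u then 1 else 0) else 0

theorem w_self {V : Type} (G : MG V) (v : V) : w G v v = 0 := by
  unfold w
  simp

theorem w_symm {V : Type} (G : MG V) (v u : V) : w G v u = w G u v := by
  unfold w
  rw [G.red.adj_comm v u, G.blue.adj_comm v u]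
  by_cases h : u = v
  · subst h; rfl
  · rw [if_pos h, if_pos (Ne.symm h)]

theorem non_eq {V : Type} [DecidableEq V] (G : MG V) (T : Finset V) (v : V) :
    nonred G T v + nonblue G T v = ∑ u ∈ T, w G v u := by
  unfold nonred nonblue w
  rw [Finset.card_filter, Finset.card_filter, ← Finset.sum_add_distrib]
  apply Finset.sum_congr rfl
  intro u _
  by_cases h1 : u = v
  · simp [h1]
  · by_cases h2 : G.red.Adj v u <;> by_cases h3 : G.blue.Adj v u <;> simp [h1, h2, h3]

/-- the energy -/
noncomputable def Phi {n N : ℕ} (G : MG (Fin n)) (S : Finset (Fin n)) (c : Fin n → Fin N) : ℕ :=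
  ∑ a ∈ S, ∑ b ∈ S, if c a = c b then w G a b else 0

theorem Phi_split {n N : ℕ} (G : MG (Fin n)) (S : Finset (Fin n)) (c : Fin n → Fin N) (v : Fin n)
    (hv : v ∈ S) :
    Phi G S c = 2 * (∑ b ∈ S.erase v, if c v = c b then w G v b else 0) +
      ∑ a ∈ S.erase v, ∑ b ∈ S.erase v, if c a = c b then w G a b else 0 := by
  unfold Phi
  rw [← Finset.add_sum_erase S _ hv, ← Finset.add_sum_erase S _ hv]
  have h1 : ∀ a ∈ S.erase v, (∑ b ∈ S, if c a = c b then w G a b else 0) =
      (if c v = c a then w G v a else 0) + ∑ b ∈ S.erase v, if c a = c b then w G a b else 0 := by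
    intro a _
    rw [← Finset.add_sum_erase S _ hv]
    congr 1
    rw [w_symm G a v]
    by_cases h : c a = c v
    · rw [if_pos h, if_pos h.symm]
    · rw [if_neg h, if_neg (fun h' => h h'.symm)]
  rw [Finset.sum_congr rfl h1, Finset.sum_add_distrib, if_pos rfl, w_self]
  ring

theorem main : PartLOV := by
  intro n G S N t hS hcard
  have hSne : S.Nonempty := by
    rw [← Finset.card_pos]
    exact lt_of_le_of_lt (Nat.zero_le _) hcard
  have hN : 0 < N := by
    obtain ⟨v, hv⟩ := hSne
    have := hS v hv
    omega
  have : NeZero N := ⟨hN.ne'⟩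
  obtain ⟨c, hc⟩ := Finite.exists_min (fun c : Fin n → Fin N => Phi G S c)
  have key : ∀ v ∈ S, (∑ b ∈ S.erase v, if c v = c b then w G v b else 0) ≤ 1 := by
    intro v hv
    set D := ∑ b ∈ S.erase v, if c v = c b then w G v b else 0 with hD
    have h1 : ∀ j : Fin N, D ≤ ∑ b ∈ S.erase v, if j = c b then w G v b else 0 := by
      intro j
      have h2 := hc (Function.update c v j)
      rw [Phi_split G S c v hv, Phi_split G S (Function.update c v j) v hv] at h2
      have h3 : (∑ a ∈ S.erase v, ∑ b ∈ S.erase v,
          if Function.update c v j a = Function.update c v j b then w G a b else 0) =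
          ∑ a ∈ S.erase v, ∑ b ∈ S.erase v, if c a = c b then w G a b else 0 := by
        apply Finset.sum_congr rfl
        intro a ha
        apply Finset.sum_congr rfl
        intro b hb
        rw [Function.update_of_ne (Finset.ne_of_mem_erase ha),
          Function.update_of_ne (Finset.ne_of_mem_erase hb)]
      have h4 : (∑ b ∈ S.erase v,
          if Function.update c v j v = Function.update c v j b then w G v b else 0) =
          ∑ b ∈ S.erase v, if j = c b then w G v b else 0 := by
        apply Finset.sum_congr rfl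
        intro b hb
        rw [Function.update_self, Function.update_of_ne (Finset.ne_of_mem_erase hb)]
      rw [h3, h4] at h2
      omega
    have h5 : ∑ j : Fin N, (∑ b ∈ S.erase v, if j = c b then w G v b else 0) =
        ∑ b ∈ S.erase v, w G v b := by
      rw [Finset.sum_comm]
      apply Finset.sum_congr rfl
      intro b _
      simp
    have h6 : N * D ≤ ∑ b ∈ S.erase v, w G v b := by
      rw [← h5]
      calc N * D = ∑ _j : Fin N, D := by simp
        _ ≤ _ := Finset.sum_le_sum (fun j _ => h1 j)
    have h7 : ∑ b ∈ S.erase v, w G v b < 2 * N := by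
      have h8 := hS v hv
      rw [non_eq, ← Finset.add_sum_erase S _ hv, w_self] at h8
      omega
    by_contra h9
    have h10 : 2 ≤ D := by omega
    have h11 : N * 2 ≤ N * D := Nat.mul_le_mul_left _ h10
    omega
  obtain ⟨j, -, hj⟩ := Finset.exists_lt_card_fiber_of_mul_lt_card_of_maps_to
    (s := S) (t := (Finset.univ : Finset (Fin N))) (f := c) (n := t)
    (fun a _ => Finset.mem_univ _) (by
      rw [Finset.card_univ, Fintype.card_fin, Nat.mul_comm]
      exact hcard)
  obtain ⟨U, hU, hUc⟩ := Finset.exists_subset_card_eq (Nat.succ_le_of_lt hj)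
  have hUS : U ⊆ S := hU.trans (Finset.filter_subset _ _)
  refine ⟨U, hUS, hUc, ?_⟩
  intro v hv
  have hvS : v ∈ S := hUS hv
  have hcv : c v = j := (Finset.mem_filter.1 (hU hv)).2
  rw [non_eq]
  refine le_trans ?_ (key v hvS)
  have h1 : ∑ u ∈ U, w G v u = ∑ u ∈ U, if c v = c u then w G v u else 0 := by
    apply Finset.sum_congr rfl
    intro u hu
    rw [if_pos]
    rw [hcv, (Finset.mem_filter.1 (hU hu)).2]
  have h2 : ∑ u ∈ S, (if c v = c u then w G v u else 0) =
      ∑ b ∈ S.erase v, if c v = c b then w G v b else 0 := by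
    rw [← Finset.add_sum_erase S _ hvS, w_self]
    simp
  rw [h1, ← h2]
  exact Finset.sum_le_sum_of_subset hUS

end W576.MX.LOV
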